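import Mathlib

/-! # MP_c89be3_co, Q1: the statement fails for `n = 2` and every number `m ≥ 5` of vertices

The graph is the complete graph on five vertices without two disjoint edges (a wheel with four
spokes), together with `m - 5` isolated vertices; it has `e 2 = 8` edges. -/

set_option autoImplicit false

namespace Pool.Agent.Results.MP_c89be3_co.FailsForTwo

open SimpleGraph

/-- `e(n) = C(2n+1, 2) - C(n, 2) - 1` -/
def e (n : ℕ) : ℕ := (2 * n + 1).choose 2 - n.choose 2 - 1

/-- `E(G)` is the union of `E(B)` and `E(D)`, where `B` is bipartite and all degrees of `D` are less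
than `n` -/
def Splittable {V : Type} (n : ℕ) (G : SimpleGraph V) : Prop :=
  ∃ B D : SimpleGraph V, G.edgeSet = B.edgeSet ∪ D.edgeSet ∧ B.IsBipartite ∧
    ∀ v, (D.neighborSet v).ncard < n

/-- the wheel: hub `0`, rim `1 2 3 4` (the pairs `13` and `24` are not adjacent) -/
def W : SimpleGraph (Fin 5) where
  Adj a b := a ≠ b ∧ ¬ (a = 1 ∧ b = 3) ∧ ¬ (a = 3 ∧ b = 1) ∧ ¬ (a = 2 ∧ b = 4) ∧ ¬ (a = 4 ∧ b = 2)
  symm := ⟨fun a b h => by revert a b; decide⟩
  loopless := ⟨fun a h => h.1 rfl⟩

instance : DecidableRel W.Adj := fun a b => by unfold W; infer_instance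

/-- every partition of the five vertices into two parts leaves a vertex with two neighbours in its
own part -/
theorem W_key : ∀ c : Fin 5 → Bool, ∃ v x y : Fin 5, x ≠ y ∧ W.Adj v x ∧ W.Adj v y ∧
    c x = c v ∧ c y = c v := by decide +kernel

theorem W_card : W.edgeFinset.card = 8 := by decide +kernel

theorem not_splittable {m : ℕ} (f : Fin 5 ↪ Fin m) : ¬ Splittable 2 (W.map f) := by
  rintro ⟨B, D, hE, ⟨C⟩, hD⟩
  obtain ⟨v, x, y, hxy, hvx, hvy, hx, hy⟩ := W_key (fun i => decide (C (f i) = 0))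
  have key : ∀ z : Fin 5, W.Adj v z →
      decide (C (f z) = 0) = decide (C (f v) = 0) → D.Adj (f v) (f z) := by
    intro z hz hc
    have h1 : s(f v, f z) ∈ (W.map f).edgeSet := by
      rw [SimpleGraph.mem_edgeSet, SimpleGraph.map_adj]
      exact ⟨v, z, hz, rfl, rfl⟩
    rw [hE] at h1
    rcases h1 with h1 | h1
    · exfalso
      have h2 := C.valid ((SimpleGraph.mem_edgeSet B).1 h1)
      apply h2
      have h3 : ∀ a b : Fin 2, decide (b = 0) = decide (a = 0) → a = b := by decide
      exact h3 _ _ hc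
    · exact (SimpleGraph.mem_edgeSet D).1 h1
  have h4 : ({f x, f y} : Set (Fin m)) ⊆ D.neighborSet (f v) := by
    rintro z (rfl | rfl)
    · exact key x hvx hx
    · exact key y hvy hy
  have h5 : ({f x, f y} : Set (Fin m)).ncard = 2 :=
    Set.ncard_pair (fun h => hxy (f.injective h))
  have h6 := Set.ncard_le_ncard h4 (Set.toFinite _)
  have h7 := hD (f v)
  omega

/-- For every `m ≥ 5` there is a graph with `m` vertices and exactly `e 2 = 8` edges which is not
`2`-splittable. So the statement of Q1 (for all `n ≥ 1`, `m ≥ 2 n`) is false. -/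
theorem result : (∀ m : ℕ, 5 ≤ m →
      ∃ G : SimpleGraph (Fin m), G.edgeSet.ncard = e 2 ∧ ¬ Splittable 2 G) ∧
    ¬ ∀ n m : ℕ, 1 ≤ n → 2 * n ≤ m → ∀ G : SimpleGraph (Fin m), G.edgeSet.ncard = e n →
      Splittable n G := by
  have h1 : ∀ m : ℕ, 5 ≤ m →
      ∃ G : SimpleGraph (Fin m), G.edgeSet.ncard = e 2 ∧ ¬ Splittable 2 G := by
    intro m hm
    let f : Fin 5 ↪ Fin m := Fin.castLEEmb hm
    refine ⟨W.map f, ?_, not_splittable f⟩
    rw [SimpleGraph.edgeSet_map, Set.ncard_image_of_injective _ f.sym2Map.injective,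
      ← SimpleGraph.coe_edgeFinset, Set.ncard_coe_finset, W_card]
    rfl
  refine ⟨h1, fun h => ?_⟩
  obtain ⟨G, hG, hn⟩ := h1 5 le_rfl
  exact hn (h 2 5 (by norm_num) (by norm_num) G hG)

end Pool.Agent.Results.MP_c89be3_co.FailsForTwo
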